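import Pool.Agent.Helper56.AP.Defs2
import Pool.Agent.Helper7.GPC.Div
import Pool.Agent.Helper69.FF.DivS
import Pool.Agent.Helper9.AP.GQ

/-!
# Project A': block LL (`λ_R(l) = Λ(l)` up to a small error)
-/

open MeasureTheory Set Filter Topology
open Pool.Agent.Helper69.FF (mf)
open Pool.Agent.AP (lamQ GG cr)

set_option autoImplicit false

namespace Pool.Agent.Helper7.AP

/-- multiples of `d` up to `R` -/
lemma sum_mult {R d : ℕ} (hd : 1 ≤ d) (F : ℕ → ℝ) :
    ∑ r ∈ (Finset.Icc 1 R).filter (fun r => d ∣ r), F r = ∑ f ∈ Finset.Icc 1 (R / d), F (d * f) := by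
  have h1 : (Finset.Icc 1 R).filter (fun r => d ∣ r) = (Finset.Icc 1 (R / d)).image (fun f => d * f) := by
    ext r
    simp only [Finset.mem_filter, Finset.mem_Icc, Finset.mem_image]
    constructor
    · rintro ⟨⟨h1, h2⟩, f, rfl⟩
      refine ⟨f, ⟨?_, ?_⟩, rfl⟩
      · rcases Nat.eq_zero_or_pos f with rfl | h
        · simp at h1
        · exact h
      · rw [Nat.le_div_iff_mul_le (by omega)]
        linarith [Nat.mul_comm d f]
    · rintro ⟨f, ⟨h1, h2⟩, rfl⟩
      refine ⟨⟨Nat.mul_pos (by omega) (by omega), ?_⟩, dvd_mul_right _ _⟩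
      rw [Nat.le_div_iff_mul_le (by omega)] at h2
      linarith [Nat.mul_comm d f]
  rw [h1, Finset.sum_image]
  intro a _ b _ h
  exact Nat.eq_of_mul_eq_mul_left (by omega) h

/-- one term of the expansion -/
lemma term_eq {q d f : ℕ} (hdq : Nat.Coprime d q) :
    (if Nat.Coprime (d * f) q then mf (d * f) * ((d : ℝ) * (ArithmeticFunction.moebius f : ℝ)) else 0) =
      (d : ℝ) * mf d * (if Squarefree f ∧ Nat.Coprime f (d * q) then (1 : ℝ) / Nat.totient f else 0) := by
  have hc : Nat.Coprime (d * f) q ↔ Nat.Coprime f q := by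
    rw [Nat.coprime_mul_iff_left]
    exact and_iff_right hdq
  have hc2 : Nat.Coprime f (d * q) ↔ Nat.Coprime f d ∧ Nat.Coprime f q := Nat.coprime_mul_iff_right
  by_cases hfq : Nat.Coprime f q
  · rw [if_pos (hc.2 hfq)]
    by_cases hsq : Squarefree (d * f)
    · obtain ⟨h1, h2, h3⟩ := Nat.squarefree_mul_iff.1 hsq
      rw [if_pos ⟨h3, hc2.2 ⟨h1.symm, hfq⟩⟩]
      have hmu : ArithmeticFunction.moebius (d * f) = ArithmeticFunction.moebius d * ArithmeticFunction.moebius f :=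
        ArithmeticFunction.isMultiplicative_moebius.map_mul_of_coprime h1
      have hphi : Nat.totient (d * f) = Nat.totient d * Nat.totient f := Nat.totient_mul h1
      have hmf2 : (ArithmeticFunction.moebius f : ℝ) * (ArithmeticFunction.moebius f : ℝ) = 1 := by
        have := ArithmeticFunction.moebius_sq_eq_one_of_squarefree h3
        have h4 : ((ArithmeticFunction.moebius f : ℤ) : ℝ) ^ 2 = 1 := by exact_mod_cast this
        rw [← pow_two]
        exact h4
      have hd0 : d ≠ 0 := h2.ne_zero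
      have hf0 : f ≠ 0 := h3.ne_zero
      have hp1 : (0:ℝ) < Nat.totient d := by exact_mod_cast Nat.totient_pos.2 (Nat.pos_of_ne_zero hd0)
      have hp2 : (0:ℝ) < Nat.totient f := by exact_mod_cast Nat.totient_pos.2 (Nat.pos_of_ne_zero hf0)
      unfold mf
      rw [hmu, hphi]
      push_cast
      have h5 : (ArithmeticFunction.moebius d : ℝ) * (ArithmeticFunction.moebius f : ℝ) /
          ((Nat.totient d : ℝ) * (Nat.totient f : ℝ)) * ((d : ℝ) * (ArithmeticFunction.moebius f : ℝ)) =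
          (d : ℝ) * ((ArithmeticFunction.moebius d : ℝ) / (Nat.totient d : ℝ)) * (1 / (Nat.totient f : ℝ)) *
            ((ArithmeticFunction.moebius f : ℝ) * (ArithmeticFunction.moebius f : ℝ)) := by
        field_simp
      rw [h5, hmf2, mul_one]
    · have h1 : mf (d * f) = 0 := by
        unfold mf
        rw [ArithmeticFunction.moebius_eq_zero_of_not_squarefree hsq]
        simp
      rw [h1, zero_mul]
      by_cases hd : Squarefree d
      · rw [if_neg, mul_zero]
        rintro ⟨h2, h3⟩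
        exact hsq (Nat.squarefree_mul_iff.2 ⟨(hc2.1 h3).1.symm, hd, h2⟩)
      · have h2 : mf d = 0 := by
          unfold mf
          rw [ArithmeticFunction.moebius_eq_zero_of_not_squarefree hd]
          simp
        rw [h2, mul_zero, zero_mul]
  · rw [if_neg (fun h => hfq (hc.1 h)), if_neg (fun h => hfq (hc2.1 h.2).2), mul_zero]

/-- divisor expansion of `lamQ` -/
theorem lamQ_eq {q R l : ℕ} (hl : 1 ≤ l) (hlq : Nat.Coprime l q) :
    lamQ q R (l : ℤ) = ∑ d ∈ l.divisors, (d : ℝ) * mf d * GG (d * q) (R / d) := by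
  have hl0 : l ≠ 0 := by omega
  have h1 : lamQ q R (l : ℤ) = ∑ r ∈ Finset.Icc 1 R, ∑ d ∈ l.divisors, (if d ∣ r then
      (if Nat.Coprime r q then mf r * ((d : ℝ) * (ArithmeticFunction.moebius (r / d) : ℝ)) else 0) else 0) := by
    unfold lamQ
    rw [Finset.sum_filter]
    refine Finset.sum_congr rfl fun r hr => ?_
    rw [Finset.mem_Icc] at hr
    have hr0 : r ≠ 0 := by omega
    by_cases hc : Nat.Coprime r q
    · simp only [if_pos hc]
      unfold cr
      rw [Finset.mul_sum, ← Finset.sum_filter]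
      have h3 : ∑ d ∈ r.divisors, mf r * (if (d : ℤ) ∣ (l : ℤ) then (d : ℝ) * (ArithmeticFunction.moebius (r / d) : ℝ) else 0) =
          ∑ d ∈ r.divisors.filter (fun d : ℕ => (d : ℤ) ∣ (l : ℤ)), mf r * ((d : ℝ) * (ArithmeticFunction.moebius (r / d) : ℝ)) := by
        rw [Finset.sum_filter]
        refine Finset.sum_congr rfl fun d _ => ?_
        split_ifs <;> simp
      have h2 : r.divisors.filter (fun d : ℕ => (d : ℤ) ∣ (l : ℤ)) = l.divisors.filter (fun d => d ∣ r) := by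
        ext d
        simp only [Finset.mem_filter, Nat.mem_divisors, Int.natCast_dvd_natCast]
        tauto
      rw [h3, h2]
    · simp [if_neg hc]
  rw [h1, Finset.sum_comm]
  refine Finset.sum_congr rfl fun d hd => ?_
  rw [Nat.mem_divisors] at hd
  have hd1 : 1 ≤ d := Nat.pos_of_dvd_of_pos hd.1 (by omega)
  have hdq : Nat.Coprime d q := Nat.Coprime.coprime_dvd_left hd.1 hlq
  rw [← Finset.sum_filter, sum_mult hd1]
  unfold GG
  rw [Finset.mul_sum, Finset.sum_filter]
  refine Finset.sum_congr rfl fun f _ => ?_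
  rw [Nat.mul_div_cancel_left f (by omega), term_eq hdq]
  split_ifs <;> simp

/-! ### Moebius sums over divisors -/

lemma mu_sum {l : ℕ} (hl : 1 < l) : ∑ d ∈ l.divisors, (ArithmeticFunction.moebius d : ℝ) = 0 := by
  have h1 : ∑ d ∈ l.divisors, ArithmeticFunction.moebius d = 0 := by
    rw [← ArithmeticFunction.coe_mul_zeta_apply, ArithmeticFunction.moebius_mul_coe_zeta,
      ArithmeticFunction.one_apply_ne (by omega)]
  exact_mod_cast h1

lemma mu_sum' {l : ℕ} (hl : l ≠ 0) : ∑ d ∈ l.divisors, (ArithmeticFunction.moebius d : ℝ) = if l = 1 then 1 else 0 := by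
  split_ifs with h
  · rw [h]
    simp
  · exact mu_sum (by omega)

/-- divisors not divisible by `p` -/
lemma mu_not_dvd {l p : ℕ} (hl : l ≠ 0) (hp : p.Prime) :
    ∑ d ∈ l.divisors.filter (fun d => ¬ p ∣ d), (ArithmeticFunction.moebius d : ℝ) =
      if l / p ^ l.factorization p = 1 then 1 else 0 := by
  have h0 : l / p ^ l.factorization p ≠ 0 := (Nat.ordCompl_pos p hl).ne'
  rw [← mu_sum' h0]
  apply Finset.sum_congr _ fun _ _ => rfl
  ext d
  rw [Finset.mem_filter, Nat.mem_divisors, Nat.mem_divisors]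
  constructor
  · rintro ⟨⟨h1, _⟩, h2⟩
    refine ⟨?_, h0⟩
    have h3 : d ∣ p ^ l.factorization p * (l / p ^ l.factorization p) := by
      rw [Nat.ordProj_mul_ordCompl_eq_self]
      exact h1
    refine Nat.Coprime.dvd_of_dvd_mul_left ?_ h3
    exact ((Nat.Prime.coprime_iff_not_dvd hp).2 h2).symm.pow_right _
  · rintro ⟨h1, _⟩
    refine ⟨⟨h1.trans (Nat.ordCompl_dvd l p), hl⟩, fun h2 => ?_⟩
    exact Nat.not_dvd_ordCompl hp hl (h2.trans h1)

lemma mu_dvd {l p : ℕ} (hl : 1 < l) (hp : p.Prime) :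
    ∑ d ∈ l.divisors.filter (fun d => p ∣ d), (ArithmeticFunction.moebius d : ℝ) =
      -(if l / p ^ l.factorization p = 1 then 1 else 0) := by
  have h1 := Finset.sum_filter_add_sum_filter_not l.divisors (fun d => p ∣ d)
    (fun d => (ArithmeticFunction.moebius d : ℝ))
  rw [mu_sum hl, mu_not_dvd (by omega) hp] at h1
  linarith

/-- `∑_{d | l} μ(d) ∑_{p | d} log p / p`. -/
lemma mu_kp {l : ℕ} (hl : 1 < l) :
    ∑ d ∈ l.divisors, (ArithmeticFunction.moebius d : ℝ) * ∑ p ∈ d.primeFactors, Real.log p / p =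
      -(if IsPrimePow l then Real.log l.minFac / l.minFac else 0) := by
  have hl0 : l ≠ 0 := by omega
  have h1 : ∑ d ∈ l.divisors, (ArithmeticFunction.moebius d : ℝ) * ∑ p ∈ d.primeFactors, Real.log p / p =
      ∑ p ∈ l.primeFactors, Real.log p / p * ∑ d ∈ l.divisors.filter (fun d => p ∣ d), (ArithmeticFunction.moebius d : ℝ) := by
    have h2 : ∀ d ∈ l.divisors, (ArithmeticFunction.moebius d : ℝ) * ∑ p ∈ d.primeFactors, Real.log p / p =
        ∑ p ∈ l.primeFactors, (if p ∣ d then Real.log p / p * (ArithmeticFunction.moebius d : ℝ) else 0) := by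
      intro d hd
      rw [Nat.mem_divisors] at hd
      have hd0 : d ≠ 0 := fun h => by
        rw [h, zero_dvd_iff] at hd
        exact hd.2 hd.1
      rw [← Finset.sum_filter, Finset.mul_sum]
      have h3 : l.primeFactors.filter (fun p => p ∣ d) = d.primeFactors := by
        ext p
        rw [Finset.mem_filter, Nat.mem_primeFactors, Nat.mem_primeFactors]
        constructor
        · rintro ⟨⟨h4, _, _⟩, h5⟩
          exact ⟨h4, h5, hd0⟩
        · rintro ⟨h4, h5, _⟩
          exact ⟨⟨h4, h5.trans hd.1, hl0⟩, h5⟩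
      rw [h3]
      exact Finset.sum_congr rfl fun p _ => mul_comm _ _
    rw [Finset.sum_congr rfl h2, Finset.sum_comm]
    refine Finset.sum_congr rfl fun p _ => ?_
    rw [← Finset.sum_filter, Finset.mul_sum]
  rw [h1]
  have h4 : ∀ p ∈ l.primeFactors, Real.log p / p * ∑ d ∈ l.divisors.filter (fun d => p ∣ d), (ArithmeticFunction.moebius d : ℝ) =
      -(if l / p ^ l.factorization p = 1 then Real.log p / p else 0) := by
    intro p hp
    rw [mu_dvd hl (Nat.prime_of_mem_primeFactors hp)]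
    split_ifs <;> simp
  rw [Finset.sum_congr rfl h4, Finset.sum_neg_distrib]
  congr 1
  by_cases hpp : IsPrimePow l
  · rw [if_pos hpp]
    obtain ⟨p, k, hp, hk, rfl⟩ := (isPrimePow_nat_iff l).1 hpp
    rw [Nat.primeFactors_prime_pow hk.ne' hp, Finset.sum_singleton, hp.pow_minFac hk.ne']
    rw [if_pos]
    rw [Nat.Prime.factorization_pow hp]
    simp [Nat.div_self (pow_pos hp.pos k)]
  · rw [if_neg hpp]
    refine Finset.sum_eq_zero fun p hp => ?_
    rw [if_neg]
    intro h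
    apply hpp
    have hpr := Nat.prime_of_mem_primeFactors hp
    have h5 := Nat.ordProj_mul_ordCompl_eq_self l p
    rw [h, mul_one] at h5
    rw [← h5]
    refine hpr.isPrimePow.pow ?_
    exact (hpr.factorization_pos_of_dvd hl0 (Nat.dvd_of_mem_primeFactors hp)).ne'

/-! ### the estimate -/

lemma abs_dmf_le {d : ℕ} (hd : Squarefree d) : |(d : ℝ) * mf d| ≤ (d.divisors.card : ℝ) := by
  have h1 := Pool.Agent.Helper69.FF.tot_ge hd
  have hd0 : d ≠ 0 := hd.ne_zero
  have hp1 : (0:ℝ) < Nat.totient d := by exact_mod_cast Nat.totient_pos.2 (Nat.pos_of_ne_zero hd0)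
  have h2 : |(ArithmeticFunction.moebius d : ℝ)| ≤ 1 := by
    have := ArithmeticFunction.abs_moebius_le_one (n := d)
    exact_mod_cast this
  unfold mf
  rw [abs_mul, abs_div, abs_of_nonneg (Nat.cast_nonneg d), abs_of_pos hp1, ← mul_div_assoc, div_le_iff₀ hp1]
  calc (d : ℝ) * |(ArithmeticFunction.moebius d : ℝ)| ≤ (d : ℝ) * 1 := by gcongr
    _ ≤ _ := by
      rw [mul_one]
      exact h1

/-- main part of one term -/
lemma dmf_main {d q : ℕ} (hd : Squarefree d) (hq : Squarefree q) (h : Nat.Coprime d q) :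
    (d : ℝ) * mf d * ((Nat.totient (d * q) : ℝ) / ((d * q : ℕ) : ℝ)) =
      (ArithmeticFunction.moebius d : ℝ) * ((Nat.totient q : ℝ) / q) := by
  have hd0 : d ≠ 0 := hd.ne_zero
  have hq0 : q ≠ 0 := hq.ne_zero
  have hp1 : (0:ℝ) < Nat.totient d := by exact_mod_cast Nat.totient_pos.2 (Nat.pos_of_ne_zero hd0)
  have hd1 : (0:ℝ) < d := by exact_mod_cast Nat.pos_of_ne_zero hd0
  have hq1 : (0:ℝ) < q := by exact_mod_cast Nat.pos_of_ne_zero hq0
  unfold mf
  rw [Nat.totient_mul h]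
  push_cast
  field_simp

theorem LL_main {C₀ C : ℝ} (hC : 0 < C) (hG : ∀ q R : ℕ, Squarefree q → 1 ≤ R →
    |GG q R - (Nat.totient q : ℝ) / q * (Real.log R + C₀ + ∑ p ∈ q.primeFactors, Real.log p / p)| ≤
      C * (q.divisors.card : ℝ) * (1 + Real.log R) * (R : ℝ) ^ (-(1 / 3 : ℝ)))
    {T θ B : ℝ} (hT : 1 ≤ T) (_hθ : 0 < θ) (hT4 : 4 ≤ T ^ θ) (hB1 : 1 ≤ B)
    (hB : ∀ n : ℕ, n ≠ 0 → (n : ℝ) ≤ T ^ (4:ℝ) → (n.divisors.card : ℝ) ≤ B)
    {q R l : ℕ} (hq : Squarefree q) (hqT : (q : ℝ) ≤ T ^ (2:ℝ)) (hRT : (R : ℝ) ≤ T ^ (2:ℝ)) (hl : 1 < l) (hlR : (l : ℝ) * T ^ θ ≤ R)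
    (hlq : Nat.Coprime l q) :
    |lamQ q R l - (Nat.totient q : ℝ) / q * (ArithmeticFunction.vonMangoldt l - (if IsPrimePow l then Real.log l.minFac / l.minFac else 0))| ≤
      B * (B * (C * B * (1 + 2 * Real.log T) * (T ^ θ / 2) ^ (-(1 / 3 : ℝ))) + 2 / T ^ θ) := by
  have hT0 : 0 < T := by linarith
  have hlogT : 0 ≤ Real.log T := Real.log_nonneg hT
  have hθ0 : 0 < T ^ θ := by positivity
  have hl0 : l ≠ 0 := by omega
  have hq0 : q ≠ 0 := hq.ne_zero
  have hl1 : (1:ℝ) ≤ l := by exact_mod_cast hl.le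
  have hX0 : 0 ≤ (Nat.totient q : ℝ) / q := by positivity
  have hX1 : (Nat.totient q : ℝ) / q ≤ 1 := by
    rw [div_le_one (by exact_mod_cast Nat.pos_of_ne_zero hq0)]
    exact_mod_cast Nat.totient_le q
  set X : ℝ := (Nat.totient q : ℝ) / q with hX
  set Sq : ℝ := ∑ p ∈ q.primeFactors, Real.log p / p with hSq
  set E : ℝ := B * (C * B * (1 + 2 * Real.log T) * (T ^ θ / 2) ^ (-(1 / 3 : ℝ))) + 2 / T ^ θ with hE
  have hE0 : 0 ≤ E := by positivity
  have hlR1 : (l : ℝ) ≤ R := by nlinarith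
  have hR1 : (1:ℝ) ≤ R := by linarith
  have hcard : (l.divisors.card : ℝ) ≤ B := by
    apply hB l hl0
    calc (l : ℝ) ≤ R := hlR1
      _ ≤ T ^ (2:ℝ) := hRT
      _ ≤ T ^ (4:ℝ) := Real.rpow_le_rpow_of_exponent_le hT (by norm_num)
  -- the terms
  have hterm : ∀ d ∈ l.divisors, |(d : ℝ) * mf d * GG (d * q) (R / d) -
      X * ((ArithmeticFunction.moebius d : ℝ) * (Real.log R + C₀ + Sq) - (ArithmeticFunction.moebius d : ℝ) * Real.log d +
        (ArithmeticFunction.moebius d : ℝ) * ∑ p ∈ d.primeFactors, Real.log p / p)| ≤ E := by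
    intro d hd
    rw [Nat.mem_divisors] at hd
    have hdq : Nat.Coprime d q := Nat.Coprime.coprime_dvd_left hd.1 hlq
    by_cases hsq : Squarefree d
    · have hd0 : d ≠ 0 := hsq.ne_zero
      have hd1 : (0:ℝ) < d := by exact_mod_cast Nat.pos_of_ne_zero hd0
      have hdl : (d : ℝ) ≤ l := by exact_mod_cast Nat.le_of_dvd (by omega) hd.1
      have hsqdq : Squarefree (d * q) := Nat.squarefree_mul_iff.2 ⟨hdq, hsq, hq⟩
      have hRd : T ^ θ ≤ (R : ℝ) / d := by
        rw [le_div_iff₀ hd1]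
        calc T ^ θ * d ≤ T ^ θ * l := by gcongr
          _ ≤ R := by linarith
      have hfl : (R : ℝ) / d - 1 < ((R / d : ℕ) : ℝ) := by
        have h1 : R < d * (R / d) + d := by
          have := Nat.div_add_mod R d
          have := Nat.mod_lt R (Nat.pos_of_ne_zero hd0)
          omega
        have h2 : (R : ℝ) < d * ((R / d : ℕ) : ℝ) + d := by exact_mod_cast h1
        rw [sub_lt_iff_lt_add, div_lt_iff₀ hd1]
        linarith
      have hfu : ((R / d : ℕ) : ℝ) ≤ (R : ℝ) / d := Nat.cast_div_le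
      have hhalf : T ^ θ / 2 ≤ ((R / d : ℕ) : ℝ) := by linarith
      have hRd1 : 1 ≤ R / d := by
        have : (1:ℝ) ≤ ((R / d : ℕ) : ℝ) := by linarith
        exact_mod_cast this
      have hRdpos : (0:ℝ) < ((R / d : ℕ) : ℝ) := by linarith
      have h3 := hG (d * q) (R / d) hsqdq hRd1
      -- the bound of the error
      have h4 : C * ((d * q).divisors.card : ℝ) * (1 + Real.log ((R / d : ℕ) : ℝ)) * ((R / d : ℕ) : ℝ) ^ (-(1 / 3 : ℝ)) ≤
          C * B * (1 + 2 * Real.log T) * (T ^ θ / 2) ^ (-(1 / 3 : ℝ)) := by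
        have h5 : ((d * q).divisors.card : ℝ) ≤ B := by
          apply hB _ hsqdq.ne_zero
          push_cast
          calc (d : ℝ) * q ≤ T ^ (2:ℝ) * T ^ (2:ℝ) := by
                apply mul_le_mul _ hqT (by positivity) (by positivity)
                linarith
            _ = T ^ (4:ℝ) := by
                rw [← Real.rpow_add hT0]
                norm_num
        have h6 : Real.log ((R / d : ℕ) : ℝ) ≤ 2 * Real.log T := by
          rw [← Real.log_rpow hT0]
          apply Real.log_le_log hRdpos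
          refine hfu.trans (le_trans ?_ hRT)
          apply div_le_self (by linarith)
          exact_mod_cast Nat.one_le_iff_ne_zero.2 hd0
        have h7 : 0 ≤ Real.log ((R / d : ℕ) : ℝ) := Real.log_natCast_nonneg _
        have h8 : ((R / d : ℕ) : ℝ) ^ (-(1 / 3 : ℝ)) ≤ (T ^ θ / 2) ^ (-(1 / 3 : ℝ)) :=
          Real.rpow_le_rpow_of_nonpos (by positivity) hhalf (by norm_num)
        gcongr
      have h9 := h3.trans h4
      have h10 := abs_dmf_le hsq
      have h11 : (d.divisors.card : ℝ) ≤ B := by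
        apply hB d hd0
        calc (d : ℝ) ≤ R := by linarith
          _ ≤ T ^ (2:ℝ) := hRT
          _ ≤ T ^ (4:ℝ) := Real.rpow_le_rpow_of_exponent_le hT (by norm_num)
      have hpf : ∑ p ∈ (d * q).primeFactors, Real.log p / p = (∑ p ∈ d.primeFactors, Real.log p / p) + Sq := by
        rw [Nat.Coprime.primeFactors_mul hdq, Finset.sum_union hdq.disjoint_primeFactors]
      have hlog : |Real.log ((R / d : ℕ) : ℝ) - (Real.log R - Real.log d)| ≤ 2 / T ^ θ := by
        rw [← Real.log_div (by linarith) hd1.ne', abs_sub_comm, abs_of_nonneg]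
        · rw [← Real.log_div (by positivity) hRdpos.ne']
          have h12 := Real.log_le_sub_one_of_pos (show (0:ℝ) < (R : ℝ) / d / ((R / d : ℕ) : ℝ) by positivity)
          refine h12.trans ?_
          rw [div_sub_one hRdpos.ne', div_le_div_iff₀ hRdpos hθ0]
          nlinarith
        · rw [sub_nonneg]
          exact Real.log_le_log hRdpos hfu
      have hmu : |(ArithmeticFunction.moebius d : ℝ)| ≤ 1 := by
        have := ArithmeticFunction.abs_moebius_le_one (n := d)
        exact_mod_cast this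
      have hid : (d : ℝ) * mf d * GG (d * q) (R / d) -
          X * ((ArithmeticFunction.moebius d : ℝ) * (Real.log R + C₀ + Sq) - (ArithmeticFunction.moebius d : ℝ) * Real.log d +
          (ArithmeticFunction.moebius d : ℝ) * ∑ p ∈ d.primeFactors, Real.log p / p) =
          ((d : ℝ) * mf d) * (GG (d * q) (R / d) - (Nat.totient (d * q) : ℝ) / ((d * q : ℕ) : ℝ) *
            (Real.log ((R / d : ℕ) : ℝ) + C₀ + ∑ p ∈ (d * q).primeFactors, Real.log p / p)) +
          (ArithmeticFunction.moebius d : ℝ) * X * (Real.log ((R / d : ℕ) : ℝ) - (Real.log R - Real.log d)) := by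
        rw [hpf]
        have h13 := dmf_main hsq hq hdq
        rw [← hX] at h13
        linear_combination (Real.log ((R / d : ℕ) : ℝ) + C₀ + ((∑ p ∈ d.primeFactors, Real.log p / p) + Sq)) * h13
      rw [hid]
      refine (abs_add_le _ _).trans ?_
      rw [hE]
      apply add_le_add
      · rw [abs_mul]
        exact mul_le_mul (h10.trans h11) h9 (abs_nonneg _) (by linarith)
      · rw [abs_mul, abs_mul, abs_of_nonneg hX0]
        calc |(ArithmeticFunction.moebius d : ℝ)| * X * |Real.log ((R / d : ℕ) : ℝ) - (Real.log R - Real.log d)| ≤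
            1 * 1 * (2 / T ^ θ) := by gcongr
          _ = 2 / T ^ θ := by ring
    · have h1 : mf d = 0 := by
        unfold mf
        rw [ArithmeticFunction.moebius_eq_zero_of_not_squarefree hsq]
        simp
      rw [h1, ArithmeticFunction.moebius_eq_zero_of_not_squarefree hsq]
      simpa using hE0
  have hmain : X * (ArithmeticFunction.vonMangoldt l - (if IsPrimePow l then Real.log l.minFac / l.minFac else 0)) =
      ∑ d ∈ l.divisors, X * ((ArithmeticFunction.moebius d : ℝ) * (Real.log R + C₀ + Sq) -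
        (ArithmeticFunction.moebius d : ℝ) * Real.log d +
        (ArithmeticFunction.moebius d : ℝ) * ∑ p ∈ d.primeFactors, Real.log p / p) := by
    rw [← Finset.mul_sum, Finset.sum_add_distrib, Finset.sum_sub_distrib, mu_kp hl, ← Finset.sum_mul, mu_sum hl]
    have h1 : ∑ d ∈ l.divisors, (ArithmeticFunction.moebius d : ℝ) * Real.log d = -ArithmeticFunction.vonMangoldt l :=
      ArithmeticFunction.sum_moebius_mul_log_eq
    rw [h1]
    ring
  rw [hmain, lamQ_eq hl.le hlq, ← Finset.sum_sub_distrib]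
  refine (Finset.abs_sum_le_sum_abs _ _).trans ((Finset.sum_le_sum hterm).trans ?_)
  rw [Finset.sum_const, nsmul_eq_mul]
  exact mul_le_mul_of_nonneg_right hcard hE0

end Pool.Agent.Helper7.AP

namespace Pool.Agent.AP

/-- LL, from GQ. -/
theorem LL_of (hGQ : ∃ C₀ C : ℝ, 0 < C ∧ ∀ q R : ℕ, Squarefree q → 1 ≤ R →
    |GG q R - (Nat.totient q : ℝ) / q * (Real.log R + C₀ + ∑ p ∈ q.primeFactors, Real.log p / p)| ≤
      C * (q.divisors.card : ℝ) * (1 + Real.log R) * (R : ℝ) ^ (-(1 / 3 : ℝ))) {θ : ℝ} (hθ : 0 < θ) :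
    ∃ τ : ℝ, 0 < τ ∧ ∀ᶠ T : ℝ in atTop, ∀ q R l : ℕ, Squarefree q → (q : ℝ) ≤ T ^ 2 → (R : ℝ) ≤ T ^ 2 → 1 < l →
    (l : ℝ) * T ^ θ ≤ R → Nat.Coprime l q →
    |lamQ q R l - (Nat.totient q : ℝ) / q * (ArithmeticFunction.vonMangoldt l - (if IsPrimePow l then Real.log l.minFac / l.minFac else 0))| ≤ T ^ (-τ) := by
  obtain ⟨C₀, C, hC, hG⟩ := hGQ
  obtain ⟨Cd, hCd1, hCd⟩ := Pool.Agent.Helper7.GPC.card_divisors_le (ε := θ / 144) (by positivity)
  refine ⟨θ / 6, by positivity, ?_⟩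
  set K : ℝ := Cd ^ 3 * (2 * C + 2) with hK
  have hK0 : 0 < K := by positivity
  have h1 : ∀ᶠ T : ℝ in atTop, 4 ≤ T ^ θ := (tendsto_rpow_atTop hθ).eventually_ge_atTop 4
  have h2 : ∀ᶠ T : ℝ in atTop, K * (1 + 2 * Real.log T) ≤ T ^ (θ / 12) := by
    have h3 : (fun T : ℝ => K * (1 + 2 * Real.log T)) =o[atTop] fun T : ℝ => T ^ (θ / 12) := by
      apply Asymptotics.IsLittleO.const_mul_left
      apply Asymptotics.IsLittleO.add
      · apply (Asymptotics.isLittleO_const_left).2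
        right
        exact tendsto_norm_atTop_atTop.comp (tendsto_rpow_atTop (by positivity))
      · exact (isLittleO_log_rpow_atTop (by positivity)).const_mul_left 2
    filter_upwards [h3.bound (show (0:ℝ) < 1 by norm_num), eventually_ge_atTop (1:ℝ)] with T hT hT1
    rw [one_mul, Real.norm_eq_abs, Real.norm_eq_abs, abs_of_nonneg (by positivity : 0 ≤ T ^ (θ / 12))] at hT
    exact (le_abs_self _).trans hT
  filter_upwards [h1, h2, eventually_ge_atTop (1:ℝ)] with T hT4 hTK hT1 q R l hq hqT hRT hl hlR hlq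
  have hT0 : 0 < T := by linarith
  have hlog : 0 ≤ Real.log T := Real.log_nonneg hT1
  set B : ℝ := Cd * T ^ (θ / 36) with hB
  have hTθ1 : 1 ≤ T ^ (θ / 36) := Real.one_le_rpow hT1 (by positivity)
  have hB1 : 1 ≤ B := by nlinarith
  have hBn : ∀ n : ℕ, n ≠ 0 → (n : ℝ) ≤ T ^ (4:ℝ) → (n.divisors.card : ℝ) ≤ B := by
    intro n hn hnT
    refine (hCd n hn).trans ?_
    rw [hB]
    apply mul_le_mul_of_nonneg_left _ (by linarith)
    calc (n : ℝ) ^ (θ / 144) ≤ (T ^ (4:ℝ)) ^ (θ / 144) := Real.rpow_le_rpow (by positivity) hnT (by positivity)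
      _ = T ^ (θ / 36) := by
          rw [← Real.rpow_mul hT0.le]
          congr 1
          ring
  have hqT' : (q : ℝ) ≤ T ^ (2:ℝ) := by exact_mod_cast hqT
  have hRT' : (R : ℝ) ≤ T ^ (2:ℝ) := by exact_mod_cast hRT
  have h4 := Pool.Agent.Helper7.AP.LL_main hC hG hT1 hθ hT4 hB1 hBn hq hqT' hRT' hl hlR hlq
  refine h4.trans ?_
  have h5 : (T ^ θ / 2) ^ (-(1 / 3 : ℝ)) ≤ 2 * T ^ (-(θ / 3)) := by
    rw [Real.div_rpow (by positivity) (by norm_num), ← Real.rpow_mul hT0.le]
    have h6 : θ * -(1 / 3) = -(θ / 3) := by ring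
    rw [h6]
    have h7 : (2:ℝ) ^ (-(1 / 3 : ℝ)) = ((2:ℝ) ^ (1 / 3 : ℝ))⁻¹ := Real.rpow_neg (by norm_num) _
    rw [h7, div_inv_eq_mul, mul_comm]
    have h8 : (2:ℝ) ^ (1 / 3 : ℝ) ≤ 2 := by
      calc (2:ℝ) ^ (1 / 3 : ℝ) ≤ (2:ℝ) ^ (1:ℝ) := Real.rpow_le_rpow_of_exponent_le (by norm_num) (by norm_num)
        _ = 2 := Real.rpow_one 2
    gcongr
  have h9 : 2 / T ^ θ ≤ 2 * T ^ (-(θ / 3)) := by
    rw [Real.rpow_neg hT0.le, ← div_eq_mul_inv]
    apply div_le_div_of_nonneg_left (by norm_num) (by positivity)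
    exact Real.rpow_le_rpow_of_exponent_le hT1 (by linarith)
  have h10 : B * (B * (C * B * (1 + 2 * Real.log T) * (T ^ θ / 2) ^ (-(1 / 3 : ℝ))) + 2 / T ^ θ) ≤
      B ^ 3 * (2 * C + 2) * (1 + 2 * Real.log T) * T ^ (-(θ / 3)) := by
    have h11 : B * (B * (C * B * (1 + 2 * Real.log T) * (T ^ θ / 2) ^ (-(1 / 3 : ℝ))) + 2 / T ^ θ) ≤
        B * (B * (C * B * (1 + 2 * Real.log T) * (2 * T ^ (-(θ / 3)))) + 2 * T ^ (-(θ / 3))) := by
      gcongr
    refine h11.trans ?_
    have h12 : B ≤ B ^ 3 := le_self_pow₀ hB1 (by norm_num)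
    have h13 : B * (2 * T ^ (-(θ / 3))) ≤ B ^ 3 * 2 * (1 + 2 * Real.log T) * T ^ (-(θ / 3)) := by
      calc B * (2 * T ^ (-(θ / 3))) ≤ B ^ 3 * (2 * T ^ (-(θ / 3))) := by gcongr
        _ = B ^ 3 * 2 * 1 * T ^ (-(θ / 3)) := by ring
        _ ≤ _ := by
          gcongr
          linarith
    calc _ = B ^ 3 * (2 * C) * (1 + 2 * Real.log T) * T ^ (-(θ / 3)) + B * (2 * T ^ (-(θ / 3))) := by ring
      _ ≤ B ^ 3 * (2 * C) * (1 + 2 * Real.log T) * T ^ (-(θ / 3)) + B ^ 3 * 2 * (1 + 2 * Real.log T) * T ^ (-(θ / 3)) := by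
          linarith
      _ = _ := by ring
  refine h10.trans ?_
  have h14 : B ^ 3 = Cd ^ 3 * T ^ (θ / 12) := by
    rw [hB, mul_pow, ← Real.rpow_natCast (T ^ (θ / 36)), ← Real.rpow_mul hT0.le]
    congr 2
    push_cast
    ring
  calc B ^ 3 * (2 * C + 2) * (1 + 2 * Real.log T) * T ^ (-(θ / 3)) =
        (K * (1 + 2 * Real.log T)) * (T ^ (θ / 12) * T ^ (-(θ / 3))) := by
        rw [h14, hK]
        ring
    _ ≤ T ^ (θ / 12) * (T ^ (θ / 12) * T ^ (-(θ / 3))) := by gcongr
    _ = T ^ (-(θ / 6)) := by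
        rw [← Real.rpow_add hT0, ← Real.rpow_add hT0]
        congr 1
        ring

theorem LL {θ : ℝ} (hθ : 0 < θ) : ∃ τ : ℝ, 0 < τ ∧ ∀ᶠ T : ℝ in atTop, ∀ q R l : ℕ, Squarefree q → (q : ℝ) ≤ T ^ 2 → (R : ℝ) ≤ T ^ 2 → 1 < l →
    (l : ℝ) * T ^ θ ≤ R → Nat.Coprime l q →
    |lamQ q R l - (Nat.totient q : ℝ) / q * (ArithmeticFunction.vonMangoldt l - (if IsPrimePow l then Real.log l.minFac / l.minFac else 0))| ≤ T ^ (-τ) :=
  LL_of GQ hθ

end Pool.Agent.AP
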